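import Pool.Agent.Run7.h371.TB.Iface

/-!
# Piece AbelBound
-/

set_option autoImplicit false

namespace Run7.h222

open Complex MeasureTheory Filter Topology Set Metric Run7.h371.TB

theorem abel_fin (s : ℕ → ℂ) (v : ℂ) (h0 : s 0 = 0) (n : ℕ) :
    ∑ j ∈ Finset.range n, (s (j + 1) - s j) * v ^ j =
      s n * v ^ n + (1 - v) * ∑ j ∈ Finset.range n, s (j + 1) * v ^ j := by
  induction n with
  | zero => simp [h0]
  | succ n ih =>
    rw [Finset.sum_range_succ, ih, Finset.sum_range_succ]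
    ring

theorem t_AbelBound : AbelBound := by
  intro c ξ K hξ hS z hz
  have hξ0 : ξ ≠ 0 := by
    intro h
    rw [h, norm_zero] at hξ
    exact zero_ne_one hξ
  have hK : 0 ≤ K := (norm_nonneg _).trans (hS 0)
  set v : ℂ := z / ξ with hv
  have hvn : ‖v‖ = ‖z‖ := by rw [hv, norm_div, hξ, div_one]
  have hvz : v * ξ = z := div_mul_cancel₀ z hξ0
  have h1v : ‖1 - v‖ = ‖z - ξ‖ := by
    have : 1 - v = (ξ - z) / ξ := by
      rw [hv]
      field_simp
    rw [this, norm_div, hξ, div_one, norm_sub_rev]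
  have hS0 : S c 0 ξ = 0 := by simp [S]
  have hSs : ∀ j, S c (j + 1) ξ - S c j ξ = c j * ξ ^ j := by
    intro j
    unfold S
    rw [Finset.sum_range_succ]
    ring
  have hterm : ∀ j, c j * z ^ j = (S c (j + 1) ξ - S c j ξ) * v ^ j := by
    intro j
    rw [hSs, mul_assoc, ← mul_pow, mul_comm ξ v, hvz]
  have hcb : ∀ j, ‖c j‖ ≤ 2 * K := by
    intro j
    have h1 : ‖c j‖ = ‖c j * ξ ^ j‖ := by rw [norm_mul, norm_pow, hξ, one_pow, mul_one]
    rw [h1, ← hSs]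
    calc ‖S c (j + 1) ξ - S c j ξ‖ ≤ ‖S c (j + 1) ξ‖ + ‖S c j ξ‖ := norm_sub_le _ _
      _ ≤ 2 * K := by linarith [hS (j + 1), hS j]
  have hsum : Summable fun j : ℕ => c j * z ^ j := by
    refine Summable.of_norm_bounded (g := fun j => 2 * K * ‖z‖ ^ j)
      ((summable_geometric_of_lt_one (norm_nonneg z) hz).mul_left _) fun j => ?_
    rw [norm_mul, norm_pow]
    exact mul_le_mul_of_nonneg_right (hcb j) (by positivity)
  have ht : Tendsto (fun n => ‖∑ j ∈ Finset.range n, c j * z ^ j‖) atTop (𝓝 ‖P c z‖) :=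
    hsum.hasSum.tendsto_sum_nat.norm
  have hpow : Tendsto (fun n : ℕ => K * ‖z‖ ^ n + K * ‖z - ξ‖ / (1 - ‖z‖)) atTop
      (𝓝 (K * 0 + K * ‖z - ξ‖ / (1 - ‖z‖))) :=
    ((tendsto_pow_atTop_nhds_zero_of_lt_one (norm_nonneg z) hz).const_mul K).add_const _
  rw [mul_zero, zero_add] at hpow
  refine le_of_tendsto_of_tendsto' ht hpow fun n => ?_
  rw [Finset.sum_congr rfl fun j _ => hterm j, abel_fin (fun j => S c j ξ) v hS0 n]
  have hgeo : ∑ j ∈ Finset.range n, ‖z‖ ^ j ≤ (1 - ‖z‖)⁻¹ := by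
    rw [← tsum_geometric_of_lt_one (norm_nonneg z) hz]
    exact (summable_geometric_of_lt_one (norm_nonneg z) hz).sum_le_tsum _
      fun j _ => by positivity
  have hb : ‖∑ j ∈ Finset.range n, S c (j + 1) ξ * v ^ j‖ ≤ K * (1 - ‖z‖)⁻¹ := by
    refine (norm_sum_le _ _).trans ?_
    calc ∑ j ∈ Finset.range n, ‖S c (j + 1) ξ * v ^ j‖
        ≤ ∑ j ∈ Finset.range n, K * ‖z‖ ^ j := by
          refine Finset.sum_le_sum fun j _ => ?_
          rw [norm_mul, norm_pow, hvn]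
          exact mul_le_mul_of_nonneg_right (hS (j + 1)) (by positivity)
      _ = K * ∑ j ∈ Finset.range n, ‖z‖ ^ j := by rw [Finset.mul_sum]
      _ ≤ K * (1 - ‖z‖)⁻¹ := mul_le_mul_of_nonneg_left hgeo hK
  refine (norm_add_le _ _).trans (add_le_add ?_ ?_)
  · rw [norm_mul, norm_pow, hvn]
    exact mul_le_mul_of_nonneg_right (hS n) (by positivity)
  · rw [norm_mul, h1v]
    calc ‖z - ξ‖ * ‖∑ j ∈ Finset.range n, S c (j + 1) ξ * v ^ j‖
        ≤ ‖z - ξ‖ * (K * (1 - ‖z‖)⁻¹) := mul_le_mul_of_nonneg_left hb (norm_nonneg _)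
      _ = K * ‖z - ξ‖ / (1 - ‖z‖) := by rw [div_eq_mul_inv]; ring

end Run7.h222
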