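import Pool.Agent.Run7.h371.TB.Iface

/-!
# Piece RieszTrick
-/

set_option autoImplicit false

namespace Run7.h222

open Complex MeasureTheory Filter Topology Set Metric Run7.h371.TB

theorem riesz_p (ζ z : ℂ) (ρ : ℝ) (hζ : ‖ζ‖ = 1) (hρ : 0 < ρ) (hz : ‖z - ζ‖ = ρ) :
    ‖(z - ζ) ^ 2 + (ρ : ℂ) ^ 2 * ζ * z‖ = ρ * |‖z‖ ^ 2 - 1| := by
  have hζ0 : ζ ≠ 0 := by
    intro h
    rw [h, norm_zero] at hζ
    exact zero_ne_one hζ
  set k : ℂ := (z - ζ) / ζ with hk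
  have hkn : ‖k‖ = ρ := by rw [hk, norm_div, hζ, div_one, hz]
  have hzk : z = ζ * (1 + k) := by
    rw [hk]
    field_simp
    ring
  have hkk : (ρ : ℂ) ^ 2 = k * (starRingEnd ℂ) k := by
    rw [Complex.mul_conj, Complex.normSq_eq_norm_sq, hkn]
    push_cast
    ring
  have hre : k + (starRingEnd ℂ) k = ((2 * k.re : ℝ) : ℂ) := Complex.add_conj k
  have h1 : (z - ζ) ^ 2 + (ρ : ℂ) ^ 2 * ζ * z = ζ ^ 2 * (k * ((2 * k.re + ρ ^ 2 : ℝ) : ℂ)) := by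
    have h2 : ((2 * k.re + ρ ^ 2 : ℝ) : ℂ) = k + (starRingEnd ℂ) k + k * (starRingEnd ℂ) k := by
      rw [hre, ← hkk]
      push_cast
      ring
    have h3 : z - ζ = ζ * k := by
      rw [hzk]
      ring
    rw [h3, h2, hkk]
    linear_combination (k * (starRingEnd ℂ) k * ζ) * hzk
  have h4 : ‖z‖ ^ 2 - 1 = 2 * k.re + ρ ^ 2 := by
    rw [hzk, norm_mul, hζ, one_mul, ← Complex.normSq_eq_norm_sq, Complex.normSq_apply]
    have h5 : ρ ^ 2 = k.re * k.re + k.im * k.im := by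
      rw [← hkn, ← Complex.normSq_eq_norm_sq, Complex.normSq_apply]
    rw [h5]
    simp only [add_re, add_im, one_re, one_im]
    ring
  rw [h1, norm_mul, norm_pow, hζ, one_pow, one_mul, norm_mul, hkn, Complex.norm_real, h4,
    Real.norm_eq_abs]

theorem t_RieszTrick : RieszTrick := by
  intro ζ ρ K F hζ hρ hρ1 hF hK z hz
  set p : ℂ → ℂ := fun z => (z - ζ) ^ 2 + (ρ : ℂ) ^ 2 * ζ * z with hp
  have hpd : Differentiable ℂ p := by
    rw [hp]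
    fun_prop
  have hFp : DiffContOnCl ℂ (fun z => p z * F z) (ball ζ ρ) := by
    have := hpd.diffContOnCl (s := ball ζ ρ)
    exact this.smul hF
  have hfr : ∀ x ∈ frontier (ball ζ ρ), ‖p x * F x‖ ≤ 3 * ρ * K := by
    intro x hx
    rw [frontier_ball ζ hρ.ne'] at hx
    have hx' : ‖x - ζ‖ = ρ := by rwa [mem_sphere, dist_eq_norm] at hx
    have h1 := riesz_p ζ x ρ hζ hρ hx'
    have h2 := hK x hx
    have h3 : ‖x‖ ≤ 2 := by
      calc ‖x‖ = ‖(x - ζ) + ζ‖ := by rw [sub_add_cancel]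
        _ ≤ ‖x - ζ‖ + ‖ζ‖ := norm_add_le _ _
        _ ≤ 2 := by rw [hx', hζ]; linarith
    have h4 : |‖x‖ ^ 2 - 1| ≤ 3 * |‖x‖ - 1| := by
      have : ‖x‖ ^ 2 - 1 = (‖x‖ + 1) * (‖x‖ - 1) := by ring
      rw [this, abs_mul, abs_of_nonneg (by positivity)]
      exact mul_le_mul_of_nonneg_right (by linarith) (abs_nonneg _)
    rw [norm_mul, hp]
    dsimp only
    rw [h1]
    calc ρ * |‖x‖ ^ 2 - 1| * ‖F x‖ ≤ ρ * (3 * |‖x‖ - 1|) * ‖F x‖ := by gcongr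
      _ = 3 * ρ * (|‖x‖ - 1| * ‖F x‖) := by ring
      _ ≤ 3 * ρ * K := mul_le_mul_of_nonneg_left h2 (by positivity)
  have hzcl : z ∈ closure (ball ζ ρ) := by
    rw [closure_ball ζ hρ.ne']
    exact closedBall_subset_closedBall (by linarith) hz
  have hmax := Complex.norm_le_of_forall_mem_frontier_norm_le isBounded_ball hFp hfr hzcl
  have hz' : ‖z - ζ‖ ≤ ρ / 4 := by rwa [mem_closedBall, dist_eq_norm] at hz
  have hzn : 1 - ρ / 4 ≤ ‖z‖ := by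
    have : ‖ζ‖ ≤ ‖z‖ + ‖z - ζ‖ := by
      calc ‖ζ‖ = ‖z - (z - ζ)‖ := by rw [sub_sub_cancel]
        _ ≤ ‖z‖ + ‖z - ζ‖ := norm_sub_le _ _
    rw [hζ] at this
    linarith
  have hpz : ρ ^ 2 / 2 ≤ ‖p z‖ := by
    have h1 : ‖(ρ : ℂ) ^ 2 * ζ * z‖ ≤ ‖p z‖ + ‖(z - ζ) ^ 2‖ := by
      calc ‖(ρ : ℂ) ^ 2 * ζ * z‖ = ‖p z - (z - ζ) ^ 2‖ := by
            rw [hp]
            dsimp only
            rw [add_sub_cancel_left]
        _ ≤ ‖p z‖ + ‖(z - ζ) ^ 2‖ := norm_sub_le _ _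
    rw [norm_mul, norm_mul, hζ, mul_one, norm_pow, norm_pow, Complex.norm_real,
      Real.norm_of_nonneg hρ.le] at h1
    have h2 : ‖z - ζ‖ ^ 2 ≤ (ρ / 4) ^ 2 := pow_le_pow_left₀ (norm_nonneg _) hz' 2
    have h3 : ρ ^ 2 * (3 / 4) ≤ ρ ^ 2 * ‖z‖ := by
      refine mul_le_mul_of_nonneg_left ?_ (by positivity)
      linarith
    have h4 : 0 ≤ ρ ^ 2 := by positivity
    nlinarith
  rw [norm_mul] at hmax
  have h5 : ρ ^ 2 / 2 * ‖F z‖ ≤ 3 * ρ * K :=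
    (mul_le_mul_of_nonneg_right hpz (norm_nonneg _)).trans hmax
  rw [le_div_iff₀ hρ]
  have h6 : ρ * (‖F z‖ * ρ) ≤ ρ * (6 * K) := by nlinarith
  exact le_of_mul_le_mul_left h6 hρ

end Run7.h222
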